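import Pool.Agent.helper85.PG.Spec2
import Pool.Agent.helper85.PG.Basic

/-!
# Small doubling and the Paley graph conjecture: the mixed energy
-/

set_option autoImplicit false

namespace Pool.Agent.helper85.PG

open Module Pointwise

theorem E2_large (κ M : ℝ) (hκ : 0 < κ) : ∃ p₂ : ℕ, ∀ p : ℕ, p₂ ≤ p → M ≤ (p : ℝ) ^ κ := by
  have h := (tendsto_rpow_atTop hκ).comp (tendsto_natCast_atTop_atTop (R := ℝ))
  obtain ⟨N, hN⟩ := Filter.eventually_atTop.1 (h.eventually_ge_atTop M)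
  exact ⟨N, fun p hp => hN p hp⟩

theorem E2_notLam {p : ℕ} [Fact p.Prime] (C : ℝ) (hC : 0 ≤ C) (S : Finset (ZMod p)) (ρ : ZMod p)
    (hρ : ρ ≠ 0) (h : ρ ∉ Lam C S) :
    (rr S ρ : ℝ) ≤ 1 + C * (S.card : ℝ) ^ 2 / p ∧ ((rr S ρ : ℝ) - 1 ≤ C * (S.card : ℝ) ^ 2 / p) := by
  have hp : (0 : ℝ) < p := by exact_mod_cast (Fact.out : p.Prime).pos
  have h0 : 0 ≤ C * (S.card : ℝ) ^ 2 / p := by positivity
  have h1 : (rr S ρ : ℝ) ≤ 1 + C * (S.card : ℝ) ^ 2 / p := by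
    rw [mem_Lam] at h
    by_cases h2 : 2 ≤ rr S ρ
    · have h3 : ¬ C * (S.card : ℝ) ^ 2 ≤ p * (rr S ρ : ℝ) := fun h4 => h ⟨hρ, h2, h4⟩
      push Not at h3
      have h5 : (rr S ρ : ℝ) ≤ C * (S.card : ℝ) ^ 2 / p := by
        rw [le_div_iff₀ hp, mul_comm]
        exact h3.le
      linarith
    · have h3 : rr S ρ ≤ 1 := by omega
      have h4 : (rr S ρ : ℝ) ≤ 1 := by exact_mod_cast h3
      linarith
  exact ⟨h1, by linarith⟩

theorem E2 (hLSM : LSM_stmt) (hCNT : CNT_stmt) : E2_stmt := by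
  classical
  intro d κ hκ
  obtain ⟨C, p₁, hC, hL⟩ := hLSM d (κ / 2) (half_pos hκ)
  obtain ⟨p₂, hp₂⟩ := E2_large (κ / 2) (max 2 (3 * C)) (half_pos hκ)
  refine ⟨max p₁ p₂, ?_⟩
  intro p _ hp P P' hP hP' l l' hl hl' hle
  have hpp : (0 : ℝ) < p := by exact_mod_cast (Fact.out : p.Prime).pos
  have hC0 : 0 ≤ C := by linarith
  have h0 : (0 : ZMod p) ∈ P l := hP.zero_mem hl.le
  have h0' : (0 : ZMod p) ∈ P' l' := hP'.zero_mem hl'.le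
  have hS := hL p ((le_max_left _ _).trans hp) P hP l hl
  have hS' := hL p ((le_max_left _ _).trans hp) P' hP' l' hl'
  have hbig := hp₂ p ((le_max_right _ _).trans hp)
  have hfc : 1 ≤ (P l).card := Finset.card_pos.2 ⟨0, h0⟩
  have hfc' : 1 ≤ (P' l').card := Finset.card_pos.2 ⟨0, h0'⟩
  generalize P l = S at *
  generalize P' l' = S' at *
  have hf : (1 : ℝ) ≤ (S.card : ℝ) := by exact_mod_cast hfc
  have hf' : (1 : ℝ) ≤ (S'.card : ℝ) := by exact_mod_cast hfc'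
  have hff : (S.card : ℝ) ≤ (S'.card : ℝ) := by exact_mod_cast hle
  obtain ⟨c1, c2, c3⟩ := hCNT p S h0
  obtain ⟨c1', -, c3'⟩ := hCNT p S' h0'
  have e := c2 (fun ρ => (rr S' ρ : ℝ))
  rw [e]
  set f : ℝ := (S.card : ℝ) with hfdef
  set f' : ℝ := (S'.card : ℝ) with hfdef'
  set Q : ℝ := (p : ℝ) ^ (κ / 2) with hQ
  have hQ0 : 0 < Q := Real.rpow_pos_of_pos hpp _
  have hQ2 : 2 ≤ Q := (le_max_left _ _).trans hbig
  have hQ3 : 3 * C ≤ Q := (le_max_right _ _).trans hbig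
  have hQQ : (p : ℝ) ^ κ = Q * Q := by
    rw [hQ, ← Real.rpow_add hpp]
    congr 1
    ring
  have hx0 : ∀ ρ, 0 ≤ (rr S ρ : ℝ) - 1 := by
    intro ρ
    have : (1 : ℝ) ≤ (rr S ρ : ℝ) := by exact_mod_cast c1 ρ
    linarith
  have hr0 : ∀ ρ, 0 ≤ (rr S' ρ : ℝ) - 1 := by
    intro ρ
    have : (1 : ℝ) ≤ (rr S' ρ : ℝ) := by exact_mod_cast c1' ρ
    linarith
  have hpt : ∀ ρ ∈ Finset.univ.erase (0 : ZMod p), ((rr S ρ : ℝ) - 1) * (rr S' ρ : ℝ) ≤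
      ((rr S ρ : ℝ) - 1) * (1 + C * f' ^ 2 / p) +
      (if ρ ∈ Lam C S ∩ Lam C S' then (rr S ρ : ℝ) * (rr S' ρ : ℝ) else 0) +
      (2 * (C * f ^ 2 / p)) * ((rr S' ρ : ℝ) - 1) := by
    intro ρ hρ
    have hρ0 : ρ ≠ 0 := Finset.ne_of_mem_erase hρ
    have a1 := hx0 ρ
    have a2 := hr0 ρ
    have a3 : 0 ≤ C * f' ^ 2 / p := by positivity
    have a4 : 0 ≤ C * f ^ 2 / p := by positivity
    have a5 : 0 ≤ (rr S ρ : ℝ) * (rr S' ρ : ℝ) := by positivity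
    have a6 : 0 ≤ (if ρ ∈ Lam C S ∩ Lam C S' then (rr S ρ : ℝ) * (rr S' ρ : ℝ) else 0) := by
      split_ifs
      · exact a5
      · exact le_rfl
    have a7 : 0 ≤ ((rr S ρ : ℝ) - 1) * (1 + C * f' ^ 2 / p) := mul_nonneg a1 (by linarith)
    have a8 : 0 ≤ (2 * (C * f ^ 2 / p)) * ((rr S' ρ : ℝ) - 1) := mul_nonneg (by linarith) a2
    by_cases hA : ρ ∈ Lam C S'
    · by_cases hB : ρ ∈ Lam C S
      · rw [if_pos (Finset.mem_inter.2 ⟨hB, hA⟩)]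
        have b1 : ((rr S ρ : ℝ) - 1) * (rr S' ρ : ℝ) ≤ (rr S ρ : ℝ) * (rr S' ρ : ℝ) :=
          mul_le_mul_of_nonneg_right (by linarith) (Nat.cast_nonneg _)
        linarith
      · have b1 := (E2_notLam C hC0 S ρ hρ0 hB).2
        have b2 : 2 ≤ rr S' ρ := ((mem_Lam C S' ρ).1 hA).2.1
        have b3 : (2 : ℝ) ≤ (rr S' ρ : ℝ) := by exact_mod_cast b2
        have b4 : ((rr S ρ : ℝ) - 1) * (rr S' ρ : ℝ) ≤
            (C * f ^ 2 / p) * (2 * ((rr S' ρ : ℝ) - 1)) := by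
          refine mul_le_mul b1 (by linarith) (Nat.cast_nonneg _) a4
        have b5 : (C * f ^ 2 / p) * (2 * ((rr S' ρ : ℝ) - 1)) =
            (2 * (C * f ^ 2 / p)) * ((rr S' ρ : ℝ) - 1) := by ring
        linarith
    · have b1 := (E2_notLam C hC0 S' ρ hρ0 hA).1
      have b2 : ((rr S ρ : ℝ) - 1) * (rr S' ρ : ℝ) ≤ ((rr S ρ : ℝ) - 1) * (1 + C * f' ^ 2 / p) :=
        mul_le_mul_of_nonneg_left b1 a1
      linarith
  -- the diagonal part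
  have hCS : ∑ ρ ∈ Lam C S ∩ Lam C S', (rr S ρ : ℝ) * (rr S' ρ : ℝ) ≤ Q * (f * f') := by
    have d1 := Finset.sum_mul_sq_le_sq_mul_sq (Lam C S ∩ Lam C S') (fun ρ => (rr S ρ : ℝ))
      (fun ρ => (rr S' ρ : ℝ))
    have d2 : ∑ ρ ∈ Lam C S ∩ Lam C S', (rr S ρ : ℝ) ^ 2 ≤ Q * f ^ 2 :=
      (Finset.sum_le_sum_of_subset_of_nonneg Finset.inter_subset_left
        (fun _ _ _ => sq_nonneg _)).trans hS
    have d3 : ∑ ρ ∈ Lam C S ∩ Lam C S', (rr S' ρ : ℝ) ^ 2 ≤ Q * f' ^ 2 :=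
      (Finset.sum_le_sum_of_subset_of_nonneg Finset.inter_subset_right
        (fun _ _ _ => sq_nonneg _)).trans hS'
    have d4 : (∑ ρ ∈ Lam C S ∩ Lam C S', (rr S ρ : ℝ) * (rr S' ρ : ℝ)) ^ 2 ≤
        (Q * (f * f')) ^ 2 := by
      calc _ ≤ (∑ ρ ∈ Lam C S ∩ Lam C S', (rr S ρ : ℝ) ^ 2) *
            ∑ ρ ∈ Lam C S ∩ Lam C S', (rr S' ρ : ℝ) ^ 2 := d1
        _ ≤ (Q * f ^ 2) * (Q * f' ^ 2) :=
            mul_le_mul d2 d3 (Finset.sum_nonneg fun _ _ => sq_nonneg _) (by positivity)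
        _ = (Q * (f * f')) ^ 2 := by ring
    exact (pow_le_pow_iff_left₀ (Finset.sum_nonneg fun _ _ => by positivity) (by positivity)
      two_ne_zero).1 d4
  have hite : ∑ ρ ∈ Finset.univ.erase (0 : ZMod p),
      (if ρ ∈ Lam C S ∩ Lam C S' then (rr S ρ : ℝ) * (rr S' ρ : ℝ) else 0) ≤ Q * (f * f') := by
    refine le_trans ?_ hCS
    rw [Finset.sum_ite_mem]
    exact Finset.sum_le_sum_of_subset_of_nonneg Finset.inter_subset_right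
      (fun _ _ _ => by positivity)
  have hsum := Finset.sum_le_sum hpt
  rw [Finset.sum_add_distrib, Finset.sum_add_distrib, ← Finset.sum_mul, ← Finset.mul_sum, c3, c3']
    at hsum
  have g1 : (f - 1) ^ 2 ≤ f ^ 2 := by nlinarith
  have g2 : (f' - 1) ^ 2 ≤ f' ^ 2 := by nlinarith
  have g3 : f ^ 2 ≤ f * f' := by nlinarith
  have g4 : 0 ≤ C * f' ^ 2 / p := by positivity
  have g5 : (f - 1) ^ 2 * (1 + C * f' ^ 2 / p) ≤ f * f' + C * (f ^ 2 * f' ^ 2 / p) := by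
    calc (f - 1) ^ 2 * (1 + C * f' ^ 2 / p) ≤ f ^ 2 * (1 + C * f' ^ 2 / p) :=
          mul_le_mul_of_nonneg_right g1 (by linarith)
      _ = f ^ 2 + C * (f ^ 2 * f' ^ 2 / p) := by ring
      _ ≤ _ := by linarith
  have g6 : 2 * (C * f ^ 2 / p) * (f' - 1) ^ 2 ≤ 2 * C * (f ^ 2 * f' ^ 2 / p) := by
    calc 2 * (C * f ^ 2 / p) * (f' - 1) ^ 2 ≤ 2 * (C * f ^ 2 / p) * f' ^ 2 :=
          mul_le_mul_of_nonneg_left g2 (by positivity)
      _ = _ := by ring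
  have g7 : 0 ≤ f * f' := by positivity
  have g8 : 0 ≤ f ^ 2 * f' ^ 2 / p := by positivity
  have g9 : f * f' + Q * (f * f') ≤ Q * Q * (f * f') := by
    have q1 : 1 + Q ≤ Q * Q := by nlinarith
    calc f * f' + Q * (f * f') = (1 + Q) * (f * f') := by ring
      _ ≤ Q * Q * (f * f') := mul_le_mul_of_nonneg_right q1 g7
  have g10 : 3 * C * (f ^ 2 * f' ^ 2 / p) ≤ Q * Q * (f ^ 2 * f' ^ 2 / p) := by
    refine mul_le_mul_of_nonneg_right ?_ g8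
    nlinarith
  rw [hQQ]
  have g11 : Q * Q * (f * f' + f ^ 2 * f' ^ 2 / p) =
      Q * Q * (f * f') + Q * Q * (f ^ 2 * f' ^ 2 / p) := by ring
  rw [g11]
  linarith

end Pool.Agent.helper85.PG
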