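import Pool.Agent.helper85.PG.Spec

/-!
# Small doubling and the Paley graph conjecture: consequences of packing
-/

set_option autoImplicit false

namespace Pool.Agent.helper85.PG

open Module

/-- covering by translates bounds the cardinality -/
theorem PKC_card {α β γ : Type} [DecidableEq α] (A : Finset α) (T : Finset β) (B : Finset γ)
    (f : α → β → γ) (hf : ∀ t, Function.Injective fun a => f a t)
    (h : ∀ a ∈ A, ∃ t ∈ T, f a t ∈ B) : A.card ≤ T.card * B.card := by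
  classical
  rw [← Finset.card_product]
  rcases A.eq_empty_or_nonempty with rfl | ⟨a₀, ha₀⟩
  · exact Nat.zero_le _
  have : Nonempty β := ⟨(h a₀ ha₀).choose⟩
  choose! g hg using h
  refine Finset.card_le_card_of_injOn (fun a => (g a, f a (g a))) ?_ ?_
  · intro a ha
    have h1 := hg a ha
    exact Finset.mem_coe.2 (Finset.mem_product.2 ⟨h1.1, h1.2⟩)
  · intro a _ b _ hab
    have h1 := Prod.mk.inj hab
    have h2 : f a (g a) = f b (g a) := by
      rw [h1.2, h1.1]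
    exact hf (g a) h2

theorem PKC_two (hPK : PK_stmt) (p : ℕ) [Fact p.Prime] (E : Type) [NormedAddCommGroup E]
    [NormedSpace ℝ E] [FiniteDimensional ℝ E] (G : AddSubgroup (E × ZMod p)) (W : Submodule ℝ E)
    (l m : ℝ) (hl : 0 ≤ l) (hm : 0 < m) (hW : ∀ z ∈ ball G l, z.1 ∈ W) :
    ∃ T : Finset (ZMod p), T ⊆ PP G l ∧ (T.card : ℝ) ≤ (1 + 2 * l / m) ^ finrank ℝ W ∧
      ∀ y ∈ PP G l, ∃ t ∈ T, y - t ∈ PP G m := by
  classical
  obtain ⟨T, hT1, hT2, hT3⟩ := hPK E (ZMod p) G W l m hl hm hW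
  refine ⟨T.image Prod.snd, ?_, ?_, ?_⟩
  · intro y hy
    obtain ⟨t, ht, rfl⟩ := Finset.mem_image.1 hy
    have h1 := hT1 t ht
    exact (mem_PP G l t.2).2 ⟨t.1, h1.1, h1.2⟩
  · refine le_trans ?_ hT2
    exact_mod_cast Finset.card_image_le
  · intro y hy
    obtain ⟨x, hx, hxl⟩ := (mem_PP G l y).1 hy
    obtain ⟨t, ht, ht2⟩ := hT3 (x, y) ⟨hx, hxl⟩
    refine ⟨t.2, Finset.mem_image_of_mem _ ht, ?_⟩
    exact (mem_PP G m (y - t.2)).2 ⟨x - t.1, ht2.1, ht2.2⟩

theorem PKC_mul (p : ℕ) [Fact p.Prime] (A T B : Finset (ZMod p)) (c : ℝ) (hT : (T.card : ℝ) ≤ c)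
    (h : ∀ y ∈ A, ∃ t ∈ T, y - t ∈ B) : (A.card : ℝ) ≤ c * (B.card : ℝ) := by
  classical
  have h1 := PKC_card A T B (fun y t => y - t) (fun t a b hab => sub_left_injective hab) h
  calc (A.card : ℝ) ≤ ((T.card * B.card : ℕ) : ℝ) := by exact_mod_cast h1
    _ = (T.card : ℝ) * (B.card : ℝ) := by push_cast; ring
    _ ≤ c * (B.card : ℝ) := mul_le_mul_of_nonneg_right hT (Nat.cast_nonneg _)

theorem PKC (hPK : PK_stmt) : PKC_stmt := by
  classical
  refine ⟨?_, ?_, ?_⟩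
  · intro E _ _ _ H _ G W l m hFB hl hm hW
    obtain ⟨T, hT1, hT2, hT3⟩ := hPK E H G W l m hl hm hW
    have h1 := PKC_card (hFB l).toFinset T (hFB m).toFinset (fun z t => z - t)
      (fun t a b hab => sub_left_injective hab) (by
        intro z hz
        obtain ⟨t, ht, ht2⟩ := hT3 z ((hFB l).mem_toFinset.1 hz)
        exact ⟨t, ht, (hFB m).mem_toFinset.2 ht2⟩)
    rw [Set.ncard_eq_toFinset_card _ (hFB l), Set.ncard_eq_toFinset_card _ (hFB m)]
    calc (((hFB l).toFinset.card : ℕ) : ℝ) ≤ ((T.card * (hFB m).toFinset.card : ℕ) : ℝ) := by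
          exact_mod_cast h1
      _ = (T.card : ℝ) * ((hFB m).toFinset.card : ℝ) := by push_cast; ring
      _ ≤ _ := mul_le_mul_of_nonneg_right hT2 (Nat.cast_nonneg _)
  · intro p _ E _ _ _ G W l m hl hm hW
    obtain ⟨T, -, hT2, hT3⟩ := PKC_two hPK p E G W l m hl hm hW
    exact PKC_mul p (PP G l) T (PP G m) _ hT2 hT3
  · intro p _ d P hP l m hl hm
    obtain ⟨E, i1, i2, G, h1, h2, h3, hPP⟩ := hP
    obtain ⟨T, hT1, hT2, hT3⟩ := PKC_two hPK p E G ⊤ l m hl hm (fun z _ => Submodule.mem_top)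
    have hT4 : (T.card : ℝ) ≤ (1 + 2 * l / m) ^ d := by
      refine hT2.trans ?_
      rw [finrank_top]
      refine pow_le_pow_right₀ ?_ h2
      have : 0 ≤ 2 * l / m := by positivity
      linarith
    rw [hPP l, hPP m]
    exact ⟨PKC_mul p (PP G l) T (PP G m) _ hT4 hT3, T, hT1, hT4, hT3⟩

end Pool.Agent.helper85.PG
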