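import Mathlib
import Pool.Agent.helper85.PG.Spec5
import Pool.Agent.helper85.PG.Basic

/-!
# Small doubling and the Paley graph conjecture, part ZIT: iteration
-/

set_option autoImplicit false

namespace Pool.Agent.helper85.PG

open Module Pointwise

/-- the size of `P 4 + ρ P 4` -/
theorem ZIT_sum (hPKC : PKC_stmt) (hRSZ : RSZ_stmt) (hDIL : DIL_stmt) (d : ℕ) :
    ∃ C : ℝ, 1 ≤ C ∧ ∀ (p : ℕ) [Fact p.Prime] (P : ℝ → Finset (ZMod p)), IsSys p d P →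
      ∀ (L : ℝ) (ρ : ZMod p), 0 < L → ρ ≠ 0 → L ≤ (rr (P 4) ρ : ℝ) →
        ((P 4 + dil ρ (P 4)).card : ℝ) ≤ C * ((P 1).card : ℝ) * (((P 1).card : ℝ) / L) := by
  obtain ⟨C, hC1, hC⟩ := hRSZ d
  refine ⟨C * ((9 : ℝ) ^ d) ^ 2, ?_, ?_⟩
  · have h9 : (1 : ℝ) ≤ ((9 : ℝ) ^ d) ^ 2 := one_le_pow₀ (one_le_pow₀ (by norm_num))
    nlinarith
  · intro p _ P hP L ρ hL hρ hLr
    have hP' : IsSys p d fun R => P (4 * R) := hP.scale (by norm_num)
    have hQ' : IsSys p d fun R => dil ρ (P (4 * R)) := hDIL.1 p d (fun R => P (4 * R)) ρ hρ hP'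
    have h1 := (hC p (fun R => P (4 * R)) (fun R => dil ρ (P (4 * R))) hP' hQ').1
    have e1 : (4 : ℝ) * 1 = 4 := by norm_num
    simp only [e1] at h1
    have h2 := hDIL.2.1 p (P 4) ρ hρ
    rw [h2.1, h2.2] at h1
    have hsub : P 4 + dil ρ (P 4) ⊆ P (4 * 6) + dil ρ (P (4 * 6)) := by
      apply Finset.add_subset_add
      · exact hP.mono (by norm_num)
      · exact Finset.image_subset_image (hP.mono (by norm_num))
    have hcard : ((P 4 + dil ρ (P 4)).card : ℝ) ≤ ((P (4 * 6) + dil ρ (P (4 * 6))).card : ℝ) := by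
      exact_mod_cast Finset.card_le_card hsub
    have h4 : ((P 4).card : ℝ) ≤ (9 : ℝ) ^ d * ((P 1).card : ℝ) := by
      have := (hPKC.2.2 p d P hP 4 1 (by norm_num) (by norm_num)).1
      norm_num at this
      exact this
    have hN0 : (0 : ℝ) ≤ ((P 1).card : ℝ) := Nat.cast_nonneg _
    have h40 : (0 : ℝ) ≤ ((P 4).card : ℝ) := Nat.cast_nonneg _
    have hX0 : (0 : ℝ) ≤ ((P 4 + dil ρ (P 4)).card : ℝ) := Nat.cast_nonneg _
    have h5 : ((P 4 + dil ρ (P 4)).card : ℝ) * L ≤ C * (((P 4).card : ℝ) * ((P 4).card : ℝ)) := by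
      calc ((P 4 + dil ρ (P 4)).card : ℝ) * L
          ≤ ((P (4 * 6) + dil ρ (P (4 * 6))).card : ℝ) * (rr (P 4) ρ : ℝ) :=
            mul_le_mul hcard hLr hL.le (Nat.cast_nonneg _)
        _ ≤ _ := h1
    have h6 : ((P 4).card : ℝ) * ((P 4).card : ℝ) ≤ ((9 : ℝ) ^ d) ^ 2 * ((P 1).card : ℝ) ^ 2 := by
      calc ((P 4).card : ℝ) * ((P 4).card : ℝ)
          ≤ ((9 : ℝ) ^ d * ((P 1).card : ℝ)) * ((9 : ℝ) ^ d * ((P 1).card : ℝ)) :=
            mul_le_mul h4 h4 h40 (by positivity)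
        _ = _ := by ring
    have h7 : ((P 4 + dil ρ (P 4)).card : ℝ) * L ≤
        C * (((9 : ℝ) ^ d) ^ 2 * ((P 1).card : ℝ) ^ 2) :=
      h5.trans (mul_le_mul_of_nonneg_left h6 (by linarith))
    have h8 : C * ((9 : ℝ) ^ d) ^ 2 * ((P 1).card : ℝ) * (((P 1).card : ℝ) / L) =
        (C * (((9 : ℝ) ^ d) ^ 2 * ((P 1).card : ℝ) ^ 2)) / L := by
      field_simp
    rw [h8, le_div_iff₀ hL]
    exact h7

section
variable {p : ℕ} [Fact p.Prime]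

theorem ZIT_succ (P : ℝ → Finset (ZMod p)) {k : ℕ} (ρ : Fin (k + 1) → ZMod p) :
    Zk P ρ 1 = Zk P (Fin.tail ρ) 1 ∩ (P 4 + dil (ρ 0) (P 4)) := by
  ext y
  unfold Zk
  rw [Finset.mem_inter, Finset.mem_filter, Finset.mem_filter, mul_one]
  constructor
  · rintro ⟨h, h'⟩
    exact ⟨⟨h, fun i => h' i.succ⟩, h' 0⟩
  · rintro ⟨⟨h, h'⟩, h0⟩
    refine ⟨h, fun i => ?_⟩
    refine Fin.cases h0 (fun i => h' i) i

theorem ZIT_sub (P : ℝ → Finset (ZMod p)) {k : ℕ} (ρ : Fin (k + 1) → ZMod p) :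
    Zk P ρ 1 ⊆ P 4 + dil (ρ 0) (P 4) := by
  rw [ZIT_succ]
  exact Finset.inter_subset_right

/-- counting by the tail -/
theorem ZIT_count (P : ℝ → Finset (ZMod p)) (k : ℕ) (Y : Finset (ZMod p)) (t t' X : ℝ)
    (hX0 : 0 ≤ X)
    (hX : ∀ ρ' ∈ Fintype.piFinset fun _ : Fin k => Y, ((Zk P ρ' 1).card : ℝ) ≤ t →
      ((Y.filter fun y => t' < ((Zk P ρ' 1 ∩ (P 4 + dil y (P 4))).card : ℝ)).card : ℝ) ≤ X) :
    (((Fintype.piFinset fun _ : Fin (k + 1) => Y).filter fun ρ =>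
      t' < ((Zk P ρ 1).card : ℝ)).card : ℝ) ≤
      (((Fintype.piFinset fun _ : Fin k => Y).filter fun ρ =>
        t < ((Zk P ρ 1).card : ℝ)).card : ℝ) * (Y.card : ℝ) + (Y.card : ℝ) ^ k * X := by
  classical
  set S := (Fintype.piFinset fun _ : Fin (k + 1) => Y).filter fun ρ =>
      t' < ((Zk P ρ 1).card : ℝ) with hS
  set U := Fintype.piFinset fun _ : Fin k => Y with hU
  have hmap : ∀ ρ ∈ S, Fin.tail ρ ∈ U := by
    intro ρ hρ
    rw [hS, Finset.mem_filter, Fintype.mem_piFinset] at hρ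
    rw [hU, Fintype.mem_piFinset]
    exact fun i => hρ.1 i.succ
  have hsum : S.card = ∑ ρ' ∈ U, (S.filter fun ρ => Fin.tail ρ = ρ').card :=
    Finset.card_eq_sum_card_fiberwise hmap
  have hfib : ∀ ρ' ∈ U, (S.filter fun ρ => Fin.tail ρ = ρ').card ≤
      (Y.filter fun y => t' < ((Zk P ρ' 1 ∩ (P 4 + dil y (P 4))).card : ℝ)).card := by
    intro ρ' _
    apply Finset.card_le_card_of_injOn (fun ρ => ρ 0)
    · intro ρ hρ
      rw [Finset.mem_coe, Finset.mem_filter, hS, Finset.mem_filter, Fintype.mem_piFinset] at hρ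
      obtain ⟨⟨h1, h2⟩, h3⟩ := hρ
      rw [Finset.mem_coe, Finset.mem_filter]
      refine ⟨h1 0, ?_⟩
      rw [ZIT_succ, h3] at h2
      exact h2
    · intro ρ hρ σ hσ h0
      rw [Finset.mem_coe, Finset.mem_filter] at hρ hσ
      have : Fin.tail ρ = Fin.tail σ := hρ.2.trans hσ.2.symm
      ext i
      refine Fin.cases h0 (fun i => congrFun this i) i
  have hYc : ∀ ρ' ∈ U, ((S.filter fun ρ => Fin.tail ρ = ρ').card : ℝ) ≤
      (if t < ((Zk P ρ' 1).card : ℝ) then (Y.card : ℝ) else 0) + X := by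
    intro ρ' hρ'
    have h1 : ((S.filter fun ρ => Fin.tail ρ = ρ').card : ℝ) ≤
        ((Y.filter fun y => t' < ((Zk P ρ' 1 ∩ (P 4 + dil y (P 4))).card : ℝ)).card : ℝ) := by
      exact_mod_cast hfib ρ' hρ'
    split_ifs with h
    · have h2 : ((Y.filter fun y =>
          t' < ((Zk P ρ' 1 ∩ (P 4 + dil y (P 4))).card : ℝ)).card : ℝ) ≤ (Y.card : ℝ) := by
        exact_mod_cast Finset.card_filter_le _ _
      linarith
    · have h2 := hX ρ' hρ' (not_lt.1 h)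
      linarith
  have hUc : (U.card : ℝ) = (Y.card : ℝ) ^ k := by
    rw [hU, Fintype.card_piFinset_const]
    push_cast
    ring
  calc (S.card : ℝ) = ∑ ρ' ∈ U, ((S.filter fun ρ => Fin.tail ρ = ρ').card : ℝ) := by
        rw [hsum]; push_cast; rfl
    _ ≤ ∑ ρ' ∈ U, ((if t < ((Zk P ρ' 1).card : ℝ) then (Y.card : ℝ) else 0) + X) :=
        Finset.sum_le_sum hYc
    _ = ((U.filter fun ρ => t < ((Zk P ρ 1).card : ℝ)).card : ℝ) * (Y.card : ℝ) +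
        (Y.card : ℝ) ^ k * X := by
        rw [Finset.sum_add_distrib, Finset.sum_const, nsmul_eq_mul, hUc, ← Finset.sum_filter,
          Finset.sum_const, nsmul_eq_mul]

end

theorem ZIT_ind (hPKC : PKC_stmt) (hRSZ : RSZ_stmt) (hDIL : DIL_stmt) (hZST : ZST_stmt)
    (d : ℕ) (κ ω : ℝ) (hκ : 0 < κ) (hω : 0 < ω) : ∀ m : ℕ, ∃ (C : ℝ) (p₀ : ℕ),
  1 ≤ C ∧ ∀ (p : ℕ) [Fact p.Prime], p₀ ≤ p → ∀ P : ℝ → Finset (ZMod p), IsSys p d P →
    ((P 1).card : ℝ) ^ 3 ≤ p → ∀ L : ℝ, 2 ≤ L → ∀ Y : Finset (ZMod p),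
    (∀ ρ ∈ Y, ρ ≠ 0 ∧ L ≤ (rr (P 4) ρ : ℝ)) →
    (((Fintype.piFinset fun _ : Fin (m + 1) => Y).filter fun ρ =>
      C * ((P 1).card : ℝ) * (((P 1).card : ℝ) / L) ^ ((1 / 2 : ℝ) ^ m) *
        (p : ℝ) ^ (ω * (2 - 2 * (1 / 2 : ℝ) ^ m)) < ((Zk P ρ 1).card : ℝ)).card : ℝ) ≤
      C * (p : ℝ) ^ (κ - 2 * ω) * (((P 1).card : ℝ) / L) ^ 2 * (Y.card : ℝ) ^ m := by
  obtain ⟨C₁, hC₁1, hC₁⟩ := ZIT_sum hPKC hRSZ hDIL d
  intro m
  induction m with
  | zero =>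
    refine ⟨C₁, 0, hC₁1, ?_⟩
    intro p _ _ P hP _ L hL Y hY
    have hempty : ((Fintype.piFinset fun _ : Fin (0 + 1) => Y).filter fun ρ =>
      C₁ * ((P 1).card : ℝ) * (((P 1).card : ℝ) / L) ^ ((1 / 2 : ℝ) ^ 0) *
        (p : ℝ) ^ (ω * (2 - 2 * (1 / 2 : ℝ) ^ 0)) < ((Zk P ρ 1).card : ℝ)) = ∅ := by
      rw [Finset.filter_eq_empty_iff]
      intro ρ hρ
      rw [Fintype.mem_piFinset] at hρ
      obtain ⟨h0, hL0⟩ := hY (ρ 0) (hρ 0)
      have h1 := hC₁ p P hP L (ρ 0) (by linarith) h0 hL0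
      have h2 : ((Zk P ρ 1).card : ℝ) ≤ ((P 4 + dil (ρ 0) (P 4)).card : ℝ) := by
        exact_mod_cast Finset.card_le_card (ZIT_sub P ρ)
      have e1 : ω * (2 - 2 * (1 / 2 : ℝ) ^ 0) = 0 := by norm_num
      rw [e1, Real.rpow_zero, mul_one, pow_zero, Real.rpow_one, not_lt]
      exact h2.trans h1
    rw [hempty, Finset.card_empty, Nat.cast_zero]
    positivity
  | succ m ih =>
    obtain ⟨C₂, p₂, hC₂1, hC₂⟩ := ih
    obtain ⟨C₃, p₃, hC₃1, hC₃⟩ := hZST (2 * d * (m + 1) + d) κ C₁ hκ hC₁1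
    have h9 : (1 : ℝ) ≤ (9 : ℝ) ^ d := one_le_pow₀ (by norm_num)
    refine ⟨C₂ + C₃ * C₂ + C₃ * 9 ^ d, max (max p₂ p₃) 1, ?_, ?_⟩
    · have : 0 ≤ C₃ * C₂ := by positivity
      have : 0 ≤ C₃ * (9 : ℝ) ^ d := by positivity
      linarith
    intro p _ hp P hP hN3 L hL Y hY
    set C' : ℝ := C₂ + C₃ * C₂ + C₃ * 9 ^ d with hC'
    have hp2 : p₂ ≤ p := le_trans (le_trans (le_max_left _ _) (le_max_left _ _)) hp
    have hp3 : p₃ ≤ p := le_trans (le_trans (le_max_right _ _) (le_max_left _ _)) hp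
    have hp1 : (1 : ℝ) ≤ (p : ℝ) := by exact_mod_cast le_trans (le_max_right _ _) hp
    have hp0 : (0 : ℝ) < (p : ℝ) := by linarith
    have hC2C3 : 0 ≤ C₃ * C₂ := by positivity
    have hC39 : 0 ≤ C₃ * (9 : ℝ) ^ d := by positivity
    have hC'1 : 1 ≤ C' := by rw [hC']; linarith
    have hL0 : 0 < L := by linarith
    set N : ℝ := ((P 1).card : ℝ) with hNdef
    have hN1 : 1 ≤ N := by
      rw [hNdef]; exact_mod_cast hP.card_pos zero_le_one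
    have hN0 : 0 < N := by linarith
    set q : ℝ := N / L with hq
    have hq0 : 0 < q := div_pos hN0 hL0
    set t : ℝ := C₂ * N * q ^ ((1 / 2 : ℝ) ^ m) * (p : ℝ) ^ (ω * (2 - 2 * (1 / 2 : ℝ) ^ m)) with ht
    set t' : ℝ := C' * N * q ^ ((1 / 2 : ℝ) ^ (m + 1)) *
      (p : ℝ) ^ (ω * (2 - 2 * (1 / 2 : ℝ) ^ (m + 1))) with ht'
    set X : ℝ := C₃ * C₂ * (p : ℝ) ^ (κ - 2 * ω) * q ^ 2 with hX
    have hX0 : 0 ≤ X := by rw [hX]; positivity
    have hih := hC₂ p hp2 P hP hN3 L hL Y hY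
    have hcount := ZIT_count P (m + 1) Y t t' X hX0 ?_
    · have e1 : (Y.card : ℝ) ^ (m + 1) * X = C₃ * C₂ * (p : ℝ) ^ (κ - 2 * ω) * q ^ 2 *
          (Y.card : ℝ) ^ (m + 1) := by rw [hX]; ring
      have e2 : (((Fintype.piFinset fun _ : Fin (m + 1) => Y).filter fun ρ =>
        t < ((Zk P ρ 1).card : ℝ)).card : ℝ) * (Y.card : ℝ) ≤
          C₂ * (p : ℝ) ^ (κ - 2 * ω) * q ^ 2 * (Y.card : ℝ) ^ (m + 1) := by
        calc _ ≤ (C₂ * (p : ℝ) ^ (κ - 2 * ω) * q ^ 2 * (Y.card : ℝ) ^ m) * (Y.card : ℝ) :=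
              mul_le_mul_of_nonneg_right hih (Nat.cast_nonneg _)
          _ = _ := by ring
      refine hcount.trans ?_
      rw [e1]
      have e3 : 0 ≤ C₃ * (9 : ℝ) ^ d * (p : ℝ) ^ (κ - 2 * ω) * q ^ 2 * (Y.card : ℝ) ^ (m + 1) := by
        positivity
      have e4 : C' * (p : ℝ) ^ (κ - 2 * ω) * q ^ 2 * (Y.card : ℝ) ^ (m + 1) =
          C₂ * (p : ℝ) ^ (κ - 2 * ω) * q ^ 2 * (Y.card : ℝ) ^ (m + 1) +
          C₃ * C₂ * (p : ℝ) ^ (κ - 2 * ω) * q ^ 2 * (Y.card : ℝ) ^ (m + 1) +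
          C₃ * (9 : ℝ) ^ d * (p : ℝ) ^ (κ - 2 * ω) * q ^ 2 * (Y.card : ℝ) ^ (m + 1) := by
        rw [hC']; ring
      rw [e4]
      linarith
    · intro ρ' hρ' hle
      rw [Fintype.mem_piFinset] at hρ'
      have hρ0 : ∀ i, ρ' i ≠ 0 := fun i => (hY _ (hρ' i)).1
      have hZ : IsSys p (2 * d * (m + 1)) (Zk P ρ') :=
        hDIL.2.2 p d (m + 1) P ρ' (Nat.succ_pos m) hρ0 hP
      have hZ' : IsSys p (2 * d * (m + 1) + d) (Zk P ρ') := hZ.mono_dim (Nat.le_add_right _ _)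
      have hP' : IsSys p (2 * d * (m + 1) + d) P := hP.mono_dim (Nat.le_add_left _ _)
      have hsub : P 1 ⊆ Zk P ρ' 1 := by
        intro y hy
        unfold Zk
        rw [Finset.mem_filter]
        refine ⟨Finset.mem_univ _, fun i => ?_⟩
        rw [mul_one]
        have h1 : y ∈ P 4 := hP.mono (by norm_num) hy
        have h2 : (0 : ZMod p) ∈ dil (ρ' i) (P 4) := by
          unfold dil
          rw [Finset.mem_image]
          exact ⟨0, hP.zero_mem (by norm_num), mul_zero _⟩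
        have h3 := Finset.add_mem_add h1 h2
        rwa [add_zero] at h3
      have hcardle : (P 1).card ≤ (Zk P ρ' 1).card := Finset.card_le_card hsub
      have hZN : ((Zk P ρ' 1).card : ℝ) ≤ C₁ * N * (N / L) := by
        obtain ⟨h0, hL0'⟩ := hY (ρ' 0) (hρ' 0)
        have h1 := hC₁ p P hP L (ρ' 0) hL0 h0 hL0'
        have h2 : ((Zk P ρ' 1).card : ℝ) ≤ ((P 4 + dil (ρ' 0) (P 4)).card : ℝ) := by
          exact_mod_cast Finset.card_le_card (ZIT_sub P ρ')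
        exact h2.trans h1
      have hNZ : N * ((Zk P ρ' 1).card : ℝ) ≤ C₁ * (p : ℝ) := by
        have h1 : N / L ≤ N := div_le_self hN0.le (by linarith)
        have h2 : ((Zk P ρ' 1).card : ℝ) ≤ C₁ * N * N :=
          hZN.trans (mul_le_mul_of_nonneg_left h1 (by positivity))
        calc N * ((Zk P ρ' 1).card : ℝ) ≤ N * (C₁ * N * N) :=
              mul_le_mul_of_nonneg_left h2 hN0.le
          _ = C₁ * N ^ 3 := by ring
          _ ≤ C₁ * (p : ℝ) := mul_le_mul_of_nonneg_left hN3 (by linarith)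
      -- the size of q
      have hq9 : 1 ≤ 9 ^ d * q := by
        obtain ⟨h0, hL0'⟩ := hY (ρ' 0) (hρ' 0)
        have h1 : (rr (P 4) (ρ' 0) : ℝ) ≤ ((P 4).card : ℝ) := by
          unfold rr
          exact_mod_cast Finset.card_filter_le _ _
        have h4 : ((P 4).card : ℝ) ≤ (9 : ℝ) ^ d * N := by
          have := (hPKC.2.2 p d P hP 4 1 (by norm_num) (by norm_num)).1
          norm_num at this
          exact this
        have h5 : L ≤ (9 : ℝ) ^ d * N := hL0'.trans (h1.trans h4)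
        rw [hq, ← mul_div_assoc, le_div_iff₀ hL0, one_mul]
        exact h5
      have hqe : 1 ≤ 9 ^ d * q ^ ((1 / 2 : ℝ) ^ (m + 1)) := by
        have he0 : (0 : ℝ) ≤ (1 / 2 : ℝ) ^ (m + 1) := by positivity
        have he1 : (1 / 2 : ℝ) ^ (m + 1) ≤ 1 := pow_le_one₀ (by norm_num) (by norm_num)
        have h1 : (1 : ℝ) ≤ ((9 : ℝ) ^ d * q) ^ ((1 / 2 : ℝ) ^ (m + 1)) :=
          Real.one_le_rpow hq9 he0
        rw [Real.mul_rpow (by positivity) hq0.le] at h1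
        have h2 : ((9 : ℝ) ^ d) ^ ((1 / 2 : ℝ) ^ (m + 1)) ≤ (9 : ℝ) ^ d := by
          calc ((9 : ℝ) ^ d) ^ ((1 / 2 : ℝ) ^ (m + 1)) ≤ ((9 : ℝ) ^ d) ^ (1 : ℝ) :=
                Real.rpow_le_rpow_of_exponent_le h9 he1
            _ = _ := Real.rpow_one _
        calc (1 : ℝ) ≤ _ := h1
          _ ≤ _ := mul_le_mul_of_nonneg_right h2 (Real.rpow_nonneg hq0.le _)
      have hpe : (1 : ℝ) ≤ (p : ℝ) ^ (ω * (2 - 2 * (1 / 2 : ℝ) ^ (m + 1))) := by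
        apply Real.one_le_rpow hp1
        have he1 : (1 / 2 : ℝ) ^ (m + 1) ≤ 1 := pow_le_one₀ (by norm_num) (by norm_num)
        apply mul_nonneg hω.le
        linarith
      have ht3 : C₃ * N ≤ t' := by
        have hQ0 : 0 ≤ q ^ ((1 / 2 : ℝ) ^ (m + 1)) := Real.rpow_nonneg hq0.le _
        have h1 : C₃ ≤ C' * q ^ ((1 / 2 : ℝ) ^ (m + 1)) := by
          calc C₃ = C₃ * 1 := (mul_one _).symm
            _ ≤ C₃ * (9 ^ d * q ^ ((1 / 2 : ℝ) ^ (m + 1))) :=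
                mul_le_mul_of_nonneg_left hqe (by linarith)
            _ = (C₃ * 9 ^ d) * q ^ ((1 / 2 : ℝ) ^ (m + 1)) := by ring
            _ ≤ C' * q ^ ((1 / 2 : ℝ) ^ (m + 1)) := by
                apply mul_le_mul_of_nonneg_right _ hQ0
                rw [hC']; linarith
        calc C₃ * N ≤ (C' * q ^ ((1 / 2 : ℝ) ^ (m + 1))) * N :=
              mul_le_mul_of_nonneg_right h1 hN0.le
          _ = (C' * N * q ^ ((1 / 2 : ℝ) ^ (m + 1))) * 1 := by ring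
          _ ≤ (C' * N * q ^ ((1 / 2 : ℝ) ^ (m + 1))) *
              (p : ℝ) ^ (ω * (2 - 2 * (1 / 2 : ℝ) ^ (m + 1))) :=
              mul_le_mul_of_nonneg_left hpe (by positivity)
          _ = t' := by rw [ht']
      have hmain := hC₃ p hp3 P (Zk P ρ') hP' hZ' hcardle hNZ L t' hL ht3
      have hsubY : (Y.filter fun y => t' < ((Zk P ρ' 1 ∩ (P 4 + dil y (P 4))).card : ℝ)) ⊆
          ((Finset.univ : Finset (ZMod p)).filter fun ρ => ρ ≠ 0 ∧ L ≤ (rr (P 4) ρ : ℝ) ∧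
            t' ≤ ((Zk P ρ' 1 ∩ (P 4 + dil ρ (P 4))).card : ℝ)) := by
        intro y hy
        rw [Finset.mem_filter] at hy ⊢
        exact ⟨Finset.mem_univ _, (hY y hy.1).1, (hY y hy.1).2, hy.2.le⟩
      have hcY : ((Y.filter fun y =>
          t' < ((Zk P ρ' 1 ∩ (P 4 + dil y (P 4))).card : ℝ)).card : ℝ) ≤
          ((((Finset.univ : Finset (ZMod p)).filter fun ρ => ρ ≠ 0 ∧ L ≤ (rr (P 4) ρ : ℝ) ∧
            t' ≤ ((Zk P ρ' 1 ∩ (P 4 + dil ρ (P 4))).card : ℝ))).card : ℝ) := by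
        exact_mod_cast Finset.card_le_card hsubY
      refine (hcY.trans hmain).trans ?_
      -- N * #Z / t'^2 ≤ N t / t'^2 = (C₂ / C'^2) p^(-2ω)
      have ht'0 : 0 < t' := by rw [ht']; positivity
      have hQ : (q ^ ((1 / 2 : ℝ) ^ (m + 1))) ^ 2 = q ^ ((1 / 2 : ℝ) ^ m) := by
        rw [← Real.rpow_natCast, ← Real.rpow_mul hq0.le]
        congr 1
        rw [pow_succ]; push_cast; ring
      have hE : ((p : ℝ) ^ (ω * (2 - 2 * (1 / 2 : ℝ) ^ (m + 1)))) ^ 2 =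
          (p : ℝ) ^ (ω * (2 - 2 * (1 / 2 : ℝ) ^ m)) * (p : ℝ) ^ (2 * ω) := by
        rw [← Real.rpow_natCast, ← Real.rpow_mul hp0.le, ← Real.rpow_add hp0]
        congr 1
        rw [pow_succ]; push_cast; ring
      have ht'2 : t' ^ 2 = C' ^ 2 * N ^ 2 * q ^ ((1 / 2 : ℝ) ^ m) *
          ((p : ℝ) ^ (ω * (2 - 2 * (1 / 2 : ℝ) ^ m)) * (p : ℝ) ^ (2 * ω)) := by
        rw [ht', ← hQ, ← hE]; ring
      have hpw : (p : ℝ) ^ (κ - 2 * ω) * (p : ℝ) ^ (2 * ω) = (p : ℝ) ^ κ := by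
        rw [← Real.rpow_add hp0]; congr 1; ring
      have hkey : (p : ℝ) ^ κ * (N * ((Zk P ρ' 1).card : ℝ) / t' ^ 2) ≤
          C₂ * (p : ℝ) ^ (κ - 2 * ω) := by
        have h1 : N * ((Zk P ρ' 1).card : ℝ) / t' ^ 2 ≤ N * t / t' ^ 2 := by
          apply div_le_div_of_nonneg_right _ (by positivity)
          exact mul_le_mul_of_nonneg_left hle hN0.le
        have h2 : (p : ℝ) ^ κ * (N * t / t' ^ 2) ≤ C₂ * (p : ℝ) ^ (κ - 2 * ω) := by
          rw [← mul_div_assoc, div_le_iff₀ (by positivity), ht'2, ← hpw, ht]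
          have hA : 0 ≤ (p : ℝ) ^ (κ - 2 * ω) * (p : ℝ) ^ (2 * ω) * (C₂ * N ^ 2 *
            q ^ ((1 / 2 : ℝ) ^ m) * (p : ℝ) ^ (ω * (2 - 2 * (1 / 2 : ℝ) ^ m))) := by positivity
          have hC'2 : 1 ≤ C' ^ 2 := one_le_pow₀ hC'1
          nlinarith [mul_le_mul_of_nonneg_left hC'2 hA]
        exact (mul_le_mul_of_nonneg_left h1 (by positivity)).trans h2
      calc C₃ * (p : ℝ) ^ κ * (N / L) ^ 2 * (N * ((Zk P ρ' 1).card : ℝ) / t' ^ 2)
          = C₃ * (N / L) ^ 2 * ((p : ℝ) ^ κ * (N * ((Zk P ρ' 1).card : ℝ) / t' ^ 2)) := by ring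
        _ ≤ C₃ * (N / L) ^ 2 * (C₂ * (p : ℝ) ^ (κ - 2 * ω)) :=
            mul_le_mul_of_nonneg_left hkey (by positivity)
        _ = X := by rw [hX, hq]; ring

theorem ZIT (hPKC : PKC_stmt) (_hINT : INT_stmt) (hRSZ : RSZ_stmt) (hDIL : DIL_stmt)
    (hZST : ZST_stmt) : ZIT_stmt := by
  intro d k κ ω hk hκ hω
  obtain ⟨m, rfl⟩ : ∃ m, k = m + 1 := ⟨k - 1, by omega⟩
  obtain ⟨C, p₀, hC1, hC⟩ := ZIT_ind hPKC hRSZ hDIL hZST d κ ω hκ hω m
  refine ⟨C, max p₀ 1, hC1, ?_⟩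
  intro p _ hp P hP hN3 L hL Y hY
  have h1 := hC p (le_trans (le_max_left _ _) hp) P hP hN3 L hL Y hY
  have hp1 : (1 : ℝ) ≤ (p : ℝ) := by exact_mod_cast le_trans (le_max_right _ _) hp
  rw [Nat.add_sub_cancel]
  refine le_trans ?_ h1
  have hsub : ((Fintype.piFinset fun _ : Fin (m + 1) => Y).filter fun ρ =>
      C * ((P 1).card : ℝ) * (((P 1).card : ℝ) / L) ^ ((1 / 2 : ℝ) ^ m) *
        (p : ℝ) ^ (2 * ω) < ((Zk P ρ 1).card : ℝ)) ⊆
      ((Fintype.piFinset fun _ : Fin (m + 1) => Y).filter fun ρ =>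
      C * ((P 1).card : ℝ) * (((P 1).card : ℝ) / L) ^ ((1 / 2 : ℝ) ^ m) *
        (p : ℝ) ^ (ω * (2 - 2 * (1 / 2 : ℝ) ^ m)) < ((Zk P ρ 1).card : ℝ)) := by
    intro ρ hρ
    rw [Finset.mem_filter] at hρ ⊢
    refine ⟨hρ.1, lt_of_le_of_lt ?_ hρ.2⟩
    have he : (p : ℝ) ^ (ω * (2 - 2 * (1 / 2 : ℝ) ^ m)) ≤ (p : ℝ) ^ (2 * ω) := by
      apply Real.rpow_le_rpow_of_exponent_le hp1
      have : 0 ≤ (1 / 2 : ℝ) ^ m := by positivity
      nlinarith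
    have hL0 : (0 : ℝ) < L := by linarith
    exact mul_le_mul_of_nonneg_left he (by positivity)
  exact_mod_cast Finset.card_le_card hsub

end Pool.Agent.helper85.PG
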